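import Mathlib
import Pool.Agent.Helper68.KP.StR

set_option autoImplicit false

namespace Pool.Agent.Helper65.KP

open MvPolynomial Filter Pool.Agent.Helper68.KP

section

variable {D : Type} [CommRing D] [Algebra ℂ D]

/-- monomials -/
noncomputable def mo {r : ℕ} (a : Fin r → D) (d : Fin r →₀ ℕ) : D := ∏ i, a i ^ d i

theorem int_trans (S S' : Subalgebra ℂ D) (h : ∀ s ∈ S, IsIntegral S' s) (x : D)
    (hx : IsIntegral S x) : IsIntegral S' x := by
  let B := integralClosure S' D
  let φ : S →+* B := (S.val : S →+* D).codRestrict B (fun s => h s.1 s.2)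
  obtain ⟨p, hp, hpx⟩ := hx
  have h1 : IsIntegral B x := ⟨p.map φ, hp.map φ, by rw [Polynomial.eval₂_map]; exact hpx⟩
  exact isIntegral_trans (R := S') (A := B) x h1

theorem aeval_mon {r : ℕ} (a : Fin r → D) (d : Fin r →₀ ℕ) (c : ℂ) :
    aeval a (monomial d c) = c • mo a d := by
  rw [aeval_monomial, mo, Algebra.smul_def]
  congr 1
  exact Finsupp.prod_fintype _ _ (fun i => pow_zero _)

theorem lin_prod {R : Type} [CommRing R] {ι : Type} (s : Finset ι) (l : ι → Polynomial R)
    (hl : ∀ i, (l i).natDegree ≤ 1) (d : ι → ℕ) :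
    (∏ i ∈ s, l i ^ d i).natDegree ≤ ∑ i ∈ s, d i ∧
    (∏ i ∈ s, l i ^ d i).coeff (∑ i ∈ s, d i) = ∏ i ∈ s, (l i).coeff 1 ^ d i := by
  classical
  induction s using Finset.induction_on with
  | empty => simp
  | insert i s hi ih =>
    have h1 : (l i ^ d i).natDegree ≤ d i := by
      refine Polynomial.natDegree_pow_le.trans ?_
      calc d i * (l i).natDegree ≤ d i * 1 := Nat.mul_le_mul_left _ (hl i)
        _ = d i := mul_one _
    have h2 : (l i ^ d i).coeff (d i) = (l i).coeff 1 ^ d i := by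
      have := Polynomial.coeff_pow_of_natDegree_le (m := d i) (hl i)
      rwa [mul_one] at this
    rw [Finset.prod_insert hi, Finset.sum_insert hi, Finset.prod_insert hi]
    refine ⟨Polynomial.natDegree_mul_le.trans (Nat.add_le_add h1 ih.1), ?_⟩
    rw [Polynomial.coeff_mul_add_eq_of_natDegree_le h1 ih.1, h2, ih.2]

theorem hom_lead {R : Type} [CommRing R] [Algebra ℂ R] {r : ℕ} (Q : MvPolynomial (Fin r) ℂ)
    (e : ℕ) (hQ : Q.IsHomogeneous e) (l : Fin r → Polynomial R) (hl : ∀ i, (l i).natDegree ≤ 1)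
    (c : Fin r → ℂ) (hc : ∀ i, (l i).coeff 1 = algebraMap ℂ R (c i)) :
    (aeval l Q).natDegree ≤ e ∧ (aeval l Q).coeff e = algebraMap ℂ R (eval c Q) := by
  have key : ∀ d ∈ Q.support, (aeval l (monomial d (coeff d Q))).natDegree ≤ e ∧
      (aeval l (monomial d (coeff d Q))).coeff e =
        algebraMap ℂ R (eval c (monomial d (coeff d Q))) := by
    intro d hd
    have hde : ∑ i, d i = e := by
      have h0 := hQ (mem_support_iff.1 hd)
      rw [← h0, ← Finsupp.degree_eq_sum, Finsupp.degree_eq_weight_one]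
      rfl
    have h1 := lin_prod Finset.univ l hl d
    rw [hde] at h1
    rw [aeval_mon, eval_monomial]
    have h2 : (d.prod fun i k => c i ^ k) = ∏ i, c i ^ d i :=
      Finsupp.prod_fintype _ _ (fun i => pow_zero _)
    rw [h2]
    refine ⟨(Polynomial.natDegree_smul_le _ _).trans h1.1, ?_⟩
    rw [Polynomial.coeff_smul, mo, h1.2, map_mul, map_prod, Algebra.smul_def]
    congr 1
    exact Finset.prod_congr rfl fun i _ => by rw [hc, map_pow]
  have hsum : aeval l Q = ∑ d ∈ Q.support, aeval l (monomial d (coeff d Q)) := by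
    conv_lhs => rw [← support_sum_monomial_coeff Q, map_sum]
  have hsum2 : eval c Q = ∑ d ∈ Q.support, eval c (monomial d (coeff d Q)) := by
    conv_lhs => rw [← support_sum_monomial_coeff Q, map_sum]
  rw [hsum, hsum2]
  refine ⟨Polynomial.natDegree_sum_le_of_forall_le _ _ fun d hd => (key d hd).1, ?_⟩
  rw [Polynomial.finsetSum_coeff, map_sum]
  exact Finset.sum_congr rfl fun d hd => (key d hd).2


/-- elimination of one generator -/
theorem elim1 [Nontrivial D] {r : ℕ} (a : Fin (r + 1) → D) (Q : MvPolynomial (Fin (r + 1)) ℂ)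
    (e : ℕ) (he : 0 < e) (hQ : Q.IsHomogeneous e) (hQ0 : Q ≠ 0) (haQ : aeval a Q = 0) :
    ∃ a' : Fin r → D, (∀ i, a' i ∈ Submodule.span ℂ (Set.range a)) ∧
      ∀ i, IsIntegral (Algebra.adjoin ℂ (Set.range a')) (a i) := by
  obtain ⟨c, hc⟩ : ∃ c : Fin (r + 1) → ℂ, eval c Q ≠ 0 := by
    by_contra h
    push Not at h
    exact hQ0 (MvPolynomial.funext fun x => by rw [h x, map_zero])
  obtain ⟨i₀, hi₀⟩ : ∃ i, c i ≠ 0 := by
    by_contra h
    push Not at h
    have h1 : c = 0 := by ext i; simp [h i]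
    apply hc
    rw [h1, eval_zero, constantCoeff_eq]
    by_contra h2
    have h3 := hQ h2
    simp at h3
    omega
  let y : D := (c i₀)⁻¹ • a i₀
  let b : Fin (r + 1) → D := fun i => a i - c i • y
  have hb0 : b i₀ = 0 := by
    simp only [b, y, smul_smul, mul_inv_cancel₀ hi₀, one_smul, sub_self]
  let a' : Fin r → D := fun i => b (i₀.succAbove i)
  let S : Subalgebra ℂ D := Algebra.adjoin ℂ (Set.range a')
  have hbS : ∀ i, b i ∈ S := by
    intro i
    rcases eq_or_ne i i₀ with h | h
    · rw [h, hb0]; exact S.zero_mem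
    · obtain ⟨j, hj⟩ := Fin.exists_succAbove_eq h
      rw [← hj]
      exact Algebra.subset_adjoin ⟨j, rfl⟩
  have haspan : ∀ i, a i ∈ Submodule.span ℂ (Set.range a) := fun i => Submodule.subset_span ⟨i, rfl⟩
  let l : Fin (r + 1) → Polynomial S := fun i =>
    Polynomial.C ⟨b i, hbS i⟩ + Polynomial.C (algebraMap ℂ S (c i)) * Polynomial.X
  have hl : ∀ i, (l i).natDegree ≤ 1 := by
    intro i
    simp only [l]
    rw [add_comm]
    exact Polynomial.natDegree_linear_le
  have hl1 : ∀ i, (l i).coeff 1 = algebraMap ℂ S (c i) := by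
    intro i
    simp [l, Polynomial.coeff_C]
  have hly : ∀ i, Polynomial.aeval y (l i) = a i := by
    intro i
    simp only [l, map_add, map_mul, Polynomial.aeval_C, Polynomial.aeval_X]
    have h1 : algebraMap S D ⟨b i, hbS i⟩ = b i := rfl
    have h2 : algebraMap S D (algebraMap ℂ S (c i)) = algebraMap ℂ D (c i) := rfl
    rw [h1, h2, ← Algebra.smul_def]
    simp only [b]
    abel
  obtain ⟨hq1, hq2⟩ := hom_lead Q e hQ l hl c hl1
  have hq3 : Polynomial.aeval y (aeval l Q) = 0 := by
    have h1 : ((Polynomial.aeval y : Polynomial S →ₐ[S] D).restrictScalars ℂ) (aeval l Q) =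
        aeval a Q := by
      rw [← AlgHom.comp_apply, comp_aeval]
      congr 2
      ext i
      exact hly i
    rw [← haQ]
    exact h1
  have hy : IsIntegral S y := by
    have hu : (algebraMap ℂ S ((eval c Q)⁻¹)) * (algebraMap ℂ S (eval c Q)) = 1 := by
      rw [← map_mul, inv_mul_cancel₀ hc, map_one]
    refine ⟨Polynomial.C (algebraMap ℂ S ((eval c Q)⁻¹)) * aeval l Q, ?_, ?_⟩
    · refine Polynomial.monic_of_natDegree_le_of_coeff_eq_one e ?_ ?_
      · exact (Polynomial.natDegree_C_mul_le _ _).trans hq1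
      · rw [Polynomial.coeff_C_mul, hq2, hu]
    · rw [Polynomial.eval₂_mul]
      have h1 : Polynomial.eval₂ (algebraMap S D) y (aeval l Q) = 0 := hq3
      rw [h1, mul_zero]
  refine ⟨a', fun i => ?_, fun i => ?_⟩
  · exact Submodule.sub_mem _ (haspan _) (Submodule.smul_mem _ _ (Submodule.smul_mem _ _ (haspan _)))
  · have h1 : a i = algebraMap S D ⟨b i, hbS i⟩ + algebraMap S D (algebraMap ℂ S (c i)) * y := by
      have h2 := hly i
      simp only [l, map_add, map_mul, Polynomial.aeval_C, Polynomial.aeval_X] at h2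
      exact h2.symm
    rw [h1]
    exact isIntegral_algebraMap.add (isIntegral_algebraMap.mul hy)

end

section Gr

variable {D : Type} [CommRing D] [Algebra ℂ D] {V : ℕ → Submodule ℂ D}

theorem one_memV (h0 : V 0 = Submodule.span ℂ {1}) : (1 : D) ∈ V 0 := by
  rw [h0]; exact Submodule.mem_span_singleton_self 1

theorem mulV (h0 : V 0 = Submodule.span ℂ {1})
    (hs : ∀ k, V (k + 1) = Submodule.span ℂ {b | ∃ f f', f ∈ V k ∧ f' ∈ V 1 ∧ b = f * f'}) :
    ∀ k j f f', f ∈ V j → f' ∈ V k → f * f' ∈ V (j + k) := by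
  intro k
  induction k with
  | zero =>
    intro j f f' hf hf'
    rw [h0] at hf'
    obtain ⟨c, rfl⟩ := Submodule.mem_span_singleton.1 hf'
    rw [mul_smul_comm, mul_one]
    exact Submodule.smul_mem _ _ hf
  | succ k ih =>
    intro j f f' hf hf'
    rw [hs k] at hf'
    induction hf' using Submodule.span_induction with
    | mem x hx =>
      obtain ⟨g, g', hg, hg', rfl⟩ := hx
      have h1 := ih j f g hf hg
      rw [← mul_assoc, ← add_assoc, hs (j + k)]
      exact Submodule.subset_span ⟨_, _, h1, hg', rfl⟩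
    | zero => rw [mul_zero]; exact Submodule.zero_mem _
    | add x y _ _ hx hy => rw [mul_add]; exact Submodule.add_mem _ hx hy
    | smul c x _ hx => rw [mul_smul_comm]; exact Submodule.smul_mem _ _ hx

theorem powV (h0 : V 0 = Submodule.span ℂ {1})
    (hm : ∀ k j f f', f ∈ V j → f' ∈ V k → f * f' ∈ V (j + k)) (x : D) (hx : x ∈ V 1) (k : ℕ) :
    x ^ k ∈ V k := by
  induction k with
  | zero => rw [pow_zero]; exact one_memV h0
  | succ k ih => rw [pow_succ]; exact hm 1 k _ _ ih hx

theorem mo_mem (h0 : V 0 = Submodule.span ℂ {1})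
    (hm : ∀ k j f f', f ∈ V j → f' ∈ V k → f * f' ∈ V (j + k)) {r : ℕ} (a : Fin r → D)
    (ha : ∀ i, a i ∈ V 1) (d : Fin r →₀ ℕ) : mo a d ∈ V (∑ i, d i) := by
  classical
  unfold mo
  generalize (Finset.univ : Finset (Fin r)) = s
  induction s using Finset.induction_on with
  | empty => simpa using one_memV h0
  | insert i s hi ih =>
    rw [Finset.prod_insert hi, Finset.sum_insert hi]
    exact hm _ _ _ _ (powV h0 hm _ (ha i) _) ih

theorem aeval_hom (h0 : V 0 = Submodule.span ℂ {1})
    (hm : ∀ k j f f', f ∈ V j → f' ∈ V k → f * f' ∈ V (j + k)) {r : ℕ} (a : Fin r → D)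
    (ha : ∀ i, a i ∈ V 1) (Q : MvPolynomial (Fin r) ℂ) (e : ℕ) (hQ : Q.IsHomogeneous e) :
    aeval a Q ∈ V e := by
  have hsum : aeval a Q = ∑ d ∈ Q.support, aeval a (monomial d (coeff d Q)) := by
    conv_lhs => rw [← support_sum_monomial_coeff Q, map_sum]
  rw [hsum]
  refine Submodule.sum_mem _ fun d hd => ?_
  have hde : ∑ i, d i = e := by
    have h0 := hQ (mem_support_iff.1 hd)
    rw [← h0, ← Finsupp.degree_eq_sum, Finsupp.degree_eq_weight_one]
    rfl
  rw [aeval_mon, ← hde]
  exact Submodule.smul_mem _ _ (mo_mem h0 hm a ha d)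

theorem gen_top (h0 : V 0 = Submodule.span ℂ {1})
    (hs : ∀ k, V (k + 1) = Submodule.span ℂ {b | ∃ f f', f ∈ V k ∧ f' ∈ V 1 ∧ b = f * f'})
    (htop : (⨆ k, V k) = ⊤) (S : Subalgebra ℂ D) (hS : ∀ x ∈ V 1, x ∈ S) (x : D) : x ∈ S := by
  have h1 : ∀ k, V k ≤ Subalgebra.toSubmodule S := by
    intro k
    induction k with
    | zero =>
      rw [h0, Submodule.span_singleton_le_iff_mem]
      exact S.one_mem
    | succ k ih =>
      rw [hs k, Submodule.span_le]
      rintro _ ⟨f, f', hf, hf', rfl⟩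
      exact S.mul_mem (ih hf) (hS _ hf')
  have h2 : (⊤ : Submodule ℂ D) ≤ Subalgebra.toSubmodule S := by
    rw [← htop]; exact iSup_le h1
  exact h2 Submodule.mem_top

theorem fin_basis (hfd : ∀ k, FiniteDimensional ℂ (V k)) :
    ∃ (r : ℕ) (a : Fin r → D), (∀ i, a i ∈ V 1) ∧ V 1 = Submodule.span ℂ (Set.range a) := by
  have := hfd 1
  let b := Module.finBasis ℂ (V 1)
  refine ⟨_, fun i => (b i : D), fun i => (b i).2, ?_⟩
  apply le_antisymm
  · intro x hx
    have h1 := b.sum_repr ⟨x, hx⟩
    have h2 : x = ∑ i, (b.repr ⟨x, hx⟩ i) • (b i : D) := by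
      have h3 := congrArg (V 1).subtype h1
      rw [map_sum] at h3
      exact h3.symm
    rw [h2]
    exact Submodule.sum_mem _ fun i _ => Submodule.smul_mem _ _ (Submodule.subset_span ⟨i, rfl⟩)
  · rw [Submodule.span_le]
    rintro _ ⟨i, rfl⟩
    exact (b i).2

theorem exists_norm [IsDomain D] (hfd : ∀ k, FiniteDimensional ℂ (V k))
    (h0 : V 0 = Submodule.span ℂ {1})
    (hs : ∀ k, V (k + 1) = Submodule.span ℂ {b | ∃ f f', f ∈ V k ∧ f' ∈ V 1 ∧ b = f * f'})
    (hind : iSupIndep V) (htop : (⨆ k, V k) = ⊤) :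
    ∃ (r : ℕ) (a : Fin r → D), (∀ i, a i ∈ V 1) ∧ AlgebraicIndependent ℂ a ∧
      ∀ x : D, IsIntegral (Algebra.adjoin ℂ (Set.range a)) x := by
  classical
  have hm := mulV h0 hs
  have hex : ∃ r, ∃ a : Fin r → D, (∀ i, a i ∈ V 1) ∧
      ∀ x : D, IsIntegral (Algebra.adjoin ℂ (Set.range a)) x := by
    obtain ⟨r, a, ha, hspan⟩ := fin_basis hfd
    refine ⟨r, a, ha, fun x => ?_⟩
    have hx : x ∈ Algebra.adjoin ℂ (Set.range a) := by
      refine gen_top h0 hs htop _ (fun y hy => ?_) x
      rw [hspan] at hy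
      exact Algebra.span_le_adjoin ℂ _ hy
    exact isIntegral_algebraMap (R := Algebra.adjoin ℂ (Set.range a)) (x := ⟨x, hx⟩)
  obtain ⟨a, ha, hint⟩ := Nat.find_spec hex
  have hmin := fun r (hr : r < Nat.find hex) => Nat.find_min hex hr
  generalize Nat.find hex = r at a ha hint hmin
  refine ⟨r, a, ha, ?_, hint⟩
  by_contra hnot
  rw [algebraicIndependent_iff] at hnot
  push Not at hnot
  obtain ⟨P, hP, hP0⟩ := hnot
  have hcomp : ∀ e, aeval a (homogeneousComponent e P) = 0 := by
    intro e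
    rw [iSupIndep_iff_finsetSum_eq_zero_imp_eq_zero] at hind
    by_cases he : e ∈ Finset.range (P.totalDegree + 1)
    · refine hind (Finset.range (P.totalDegree + 1))
        (fun i => aeval a (homogeneousComponent i P)) (fun i _ => ?_) ?_ e he
      · exact aeval_hom h0 hm a ha _ i (homogeneousComponent_isHomogeneous i P)
      · rw [← map_sum, sum_homogeneousComponent, hP]
    · rw [homogeneousComponent_eq_zero, map_zero]
      simpa using he
  obtain ⟨e, he⟩ : ∃ e, homogeneousComponent e P ≠ 0 := by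
    by_contra h
    push Not at h
    apply hP0
    rw [← sum_homogeneousComponent P]
    exact Finset.sum_eq_zero fun i _ => h i
  have he0 : 0 < e := by
    rcases Nat.eq_zero_or_pos e with h | h
    · exfalso
      subst h
      have h1 := hcomp 0
      rw [homogeneousComponent_zero] at h1 he
      rw [aeval_C] at h1
      apply he
      have h2 : coeff 0 P = 0 := (map_eq_zero_iff _ (FaithfulSMul.algebraMap_injective ℂ D)).1 h1
      rw [h2, C_0]
    · exact h
  match r, a, ha, hint, hmin, P, he, hcomp with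
  | 0, a, ha, hint, hmin, P, he, hcomp =>
    have h1 := homogeneousComponent_isHomogeneous e P
    have h2 : homogeneousComponent e P ≠ 0 := he
    apply h2
    ext d
    rw [coeff_zero]
    by_contra h3
    have h4 := h1 h3
    have h5 : d = 0 := Subsingleton.elim _ _
    rw [h5] at h4
    simp at h4
    omega
  | r + 1, a, ha, hint, hmin, P, he, hcomp =>
    obtain ⟨a', ha', hint'⟩ := elim1 a (homogeneousComponent e P) e he0
      (homogeneousComponent_isHomogeneous e P) he (hcomp e)
    refine hmin r (Nat.lt_succ_self r) ⟨a', fun i => ?_, fun x => ?_⟩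
    · have h1 : Submodule.span ℂ (Set.range a) ≤ V 1 := by
        rw [Submodule.span_le]; rintro _ ⟨i, rfl⟩; exact ha i
      exact h1 (ha' i)
    · refine int_trans (Algebra.adjoin ℂ (Set.range a)) _ (fun s hs' => ?_) x (hint x)
      have h1 : Algebra.adjoin ℂ (Set.range a) ≤
          (integralClosure (Algebra.adjoin ℂ (Set.range a')) D).restrictScalars ℂ := by
        rw [Algebra.adjoin_le_iff]
        rintro _ ⟨i, rfl⟩
        exact hint' i
      exact h1 hs'

/-- projections on the graded pieces -/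
theorem exists_proj (h0 : V 0 = Submodule.span ℂ {1})
    (hm : ∀ k j f f', f ∈ V j → f' ∈ V k → f * f' ∈ V (j + k))
    (hind : iSupIndep V) (htop : (⨆ k, V k) = ⊤) :
    ∃ π : ℕ → D →ₗ[ℂ] D, (∀ k x, π k x ∈ V k) ∧ (∀ k x, x ∈ V k → π k x = x) ∧
      (∀ k x y, x ∈ V 1 → π (k + 1) (x * y) = x * π k y) ∧
      (∀ x y, x ∈ V 1 → π 0 (x * y) = 0) ∧ (∀ x, ∃ B, ∀ k, B ≤ k → π k x = 0) := by
  classical
  have hint : DirectSum.IsInternal V :=
    (DirectSum.isInternal_submodule_iff_iSupIndep_and_iSup_eq_top V).2 ⟨hind, htop⟩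
  let _ : SetLike.GradedMonoid V :=
    { one_mem := one_memV h0
      mul_mem := fun i j x y hx hy => hm j i x y hx hy }
  let _ : DirectSum.Decomposition V := hint.chooseDecomposition
  let _ : GradedAlgebra V := { }
  refine ⟨fun k => GradedAlgebra.proj V k, fun k x => ?_, fun k x hx => ?_, fun k x y hx => ?_,
    fun x y hx => ?_, fun x => ?_⟩
  · rw [GradedAlgebra.proj_apply]
    exact (DirectSum.decompose V x k).2
  · rw [GradedAlgebra.proj_apply, DirectSum.decompose_of_mem_same V hx]
  · rw [GradedAlgebra.proj_apply, GradedAlgebra.proj_apply]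
    exact DirectSum.coe_decompose_mul_of_left_mem_of_le V hx (Nat.le_add_left 1 k)
  · rw [GradedAlgebra.proj_apply]
    exact DirectSum.coe_decompose_mul_of_left_mem_of_not_le V hx (by omega)
  · refine ⟨(DirectSum.decompose V x).support.sup id + 1, fun k hk => ?_⟩
    rw [GradedAlgebra.proj_apply]
    by_contra h
    have h1 : k ∈ (DirectSum.decompose V x).support := by
      rw [DFinsupp.mem_support_iff]
      intro h2
      exact h (by rw [h2]; rfl)
    have h2 : k ≤ (DirectSum.decompose V x).support.sup id := Finset.le_sup (f := id) h1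
    omega

omit [Algebra ℂ D] in
theorem mo_single {r : ℕ} (a : Fin r → D) (i : Fin r) (d : Fin r →₀ ℕ) :
    a i * mo a d = mo a (d + Finsupp.single i 1) := by
  classical
  unfold mo
  have h1 : ∀ j, a j ^ (d + Finsupp.single i 1 : Fin r →₀ ℕ) j =
      a j ^ d j * (if j = i then a i else 1) := by
    intro j
    rw [Finsupp.add_apply, pow_add]
    congr 1
    rcases eq_or_ne j i with h | h
    · subst h; simp
    · rw [Finsupp.single_eq_of_ne h, if_neg h, pow_zero]
  rw [Finset.prod_congr rfl fun j _ => h1 j, Finset.prod_mul_distrib]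
  rw [Finset.prod_ite_eq' Finset.univ i (fun _ => a i)]
  rw [if_pos (Finset.mem_univ i), mul_comm]

/-- number of monomials -/
noncomputable def Nm (r k : ℕ) : ℕ := ((Finset.univ : Finset (Fin r)).finsuppAntidiag k).card

theorem Nm_eq (r k : ℕ) : r.factorial * Nm (r + 1) k = (k + 1).ascFactorial r := by
  unfold Nm
  rw [Finset.card_finsuppAntidiag_nat_eq_choose, Finset.card_univ, Fintype.card_fin,
    Nat.ascFactorial_eq_factorial_mul_choose]
  congr 1
  rw [show r + 1 + k - 1 = k + r by omega]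
  exact Nat.choose_symm_add

theorem Nm_mono (r k l : ℕ) (h : k ≤ l) : Nm (r + 1) k ≤ Nm (r + 1) l := by
  unfold Nm
  rw [Finset.card_finsuppAntidiag_nat_eq_choose, Finset.card_finsuppAntidiag_nat_eq_choose,
    Finset.card_univ, Fintype.card_fin]
  rw [show r + 1 + k - 1 = r + k by omega, show r + 1 + l - 1 = r + l by omega]
  rw [← Nat.choose_symm_add, ← Nat.choose_symm_add]
  exact Nat.choose_le_choose r (by omega)

theorem mem_anti {r : ℕ} (d : Fin r →₀ ℕ) (k : ℕ) :
    d ∈ (Finset.univ : Finset (Fin r)).finsuppAntidiag k ↔ ∑ i, d i = k := by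
  rw [Finset.mem_finsuppAntidiag]
  simp

theorem lower (hfd : ∀ k, FiniteDimensional ℂ (V k)) (h0 : V 0 = Submodule.span ℂ {1})
    (hm : ∀ k j f f', f ∈ V j → f' ∈ V k → f * f' ∈ V (j + k)) {r : ℕ} (a : Fin r → D)
    (ha : ∀ i, a i ∈ V 1) (hal : AlgebraicIndependent ℂ a) (k : ℕ) :
    Nm r k ≤ Module.finrank ℂ (V k) := by
  classical
  have := hfd k
  have h1 : LinearIndependent ℂ (fun d : Fin r →₀ ℕ => mo a d) := by
    have h2 := (basisMonomials (Fin r) ℂ).linearIndependent.map'
      (aeval a : MvPolynomial (Fin r) ℂ →ₐ[ℂ] D).toLinearMap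
      (LinearMap.ker_eq_bot.2 hal)
    have h3 : (fun d : Fin r →₀ ℕ => mo a d) =
        ⇑(aeval a : MvPolynomial (Fin r) ℂ →ₐ[ℂ] D).toLinearMap ∘
          ⇑(basisMonomials (Fin r) ℂ) := by
      ext d
      simp only [Function.comp, coe_basisMonomials, AlgHom.toLinearMap_apply]
      rw [aeval_mon, one_smul]
    rw [h3]
    exact h2
  let J := (Finset.univ : Finset (Fin r)).finsuppAntidiag k
  have hmem : ∀ d : J, mo a d.1 ∈ V k := by
    intro d
    have h2 := (mem_anti d.1 k).1 d.2
    rw [← h2]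
    exact mo_mem h0 hm a ha d.1
  have h3 : LinearIndependent ℂ (fun d : J => (⟨mo a d.1, hmem d⟩ : V k)) := by
    apply LinearIndependent.of_comp (V k).subtype
    exact h1.comp (fun d : J => d.1) Subtype.val_injective
  have h4 := h3.fintype_card_le_finrank
  rwa [Fintype.card_coe] at h4

theorem upper (hfd : ∀ k, FiniteDimensional ℂ (V k)) (h0 : V 0 = Submodule.span ℂ {1})
    (hs : ∀ k, V (k + 1) = Submodule.span ℂ {b | ∃ f f', f ∈ V k ∧ f' ∈ V 1 ∧ b = f * f'})
    (hind : iSupIndep V) (htop : (⨆ k, V k) = ⊤) {r : ℕ} (a : Fin (r + 1) → D)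
    (ha : ∀ i, a i ∈ V 1) (hint : ∀ x : D, IsIntegral (Algebra.adjoin ℂ (Set.range a)) x) :
    ∃ J : ℕ, ∀ k, Module.finrank ℂ (V k) ≤ J * Nm (r + 1) k := by
  classical
  have hm := mulV h0 hs
  obtain ⟨π, hπV, hπs, hπ1, hπ0, hπB⟩ := exists_proj h0 hm hind htop
  set S := Algebra.adjoin ℂ (Set.range a) with hS
  have h1 : Algebra.FiniteType ℂ D := by
    obtain ⟨s, b, hb, hspan⟩ := fin_basis hfd
    refine ⟨⟨Finset.univ.image b, ?_⟩⟩
    rw [eq_top_iff]
    intro x _
    refine gen_top h0 hs htop _ (fun y hy => ?_) x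
    rw [hspan] at hy
    refine Algebra.span_le_adjoin ℂ _ ?_
    rwa [Finset.coe_image, Finset.coe_univ, Set.image_univ]
  have h2 : Algebra.FiniteType S D := Algebra.FiniteType.of_restrictScalars_finiteType ℂ S D
  have h3 : Algebra.IsIntegral S D := ⟨hint⟩
  have h4 : Module.Finite S D := Algebra.IsIntegral.finite
  obtain ⟨Y, hY⟩ := h4.fg_top
  obtain ⟨B, hB⟩ : ∃ B, ∀ y ∈ Y, ∀ k, B ≤ k → π k y = 0 := by
    choose B hB using hπB
    refine ⟨Y.sup B, fun y hy k hk => hB y k ((Finset.le_sup hy).trans hk)⟩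
  let G : ℕ → Finset D := fun k => (Y ×ˢ Finset.range B).biUnion fun p =>
    if p.2 ≤ k then ((Finset.univ : Finset (Fin (r + 1))).finsuppAntidiag (k - p.2)).image
      (fun d => mo a d * π p.2 p.1) else ∅
  have hGmem : ∀ k (y : D) (q : ℕ) (d : Fin (r + 1) →₀ ℕ), y ∈ Y → q < B → ∑ i, d i + q = k →
      mo a d * π q y ∈ G k := by
    intro k y q d hy hq hd
    simp only [G, Finset.mem_biUnion]
    refine ⟨(y, q), Finset.mem_product.2 ⟨hy, Finset.mem_range.2 hq⟩, ?_⟩
    rw [if_pos (by simp only; omega)]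
    refine Finset.mem_image.2 ⟨d, ?_, rfl⟩
    rw [mem_anti]
    simp only
    omega
  have hGcard : ∀ k, (G k).card ≤ (Y ×ˢ Finset.range B).card * Nm (r + 1) k := by
    intro k
    refine Finset.card_biUnion_le_card_mul _ _ _ fun p _ => ?_
    split_ifs with h
    · exact Finset.card_image_le.trans (Nm_mono r _ _ (Nat.sub_le _ _))
    · simp
  have hstep : ∀ k i x, x ∈ Submodule.span ℂ (G k : Set D) →
      a i * x ∈ Submodule.span ℂ (G (k + 1) : Set D) := by
    intro k i x hx
    induction hx using Submodule.span_induction with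
    | mem x hx =>
      have hx' : x ∈ G k := hx
      simp only [G, Finset.mem_biUnion] at hx'
      obtain ⟨⟨y, q⟩, hp, hx''⟩ := hx'
      simp only at hx''
      split_ifs at hx'' with h
      · obtain ⟨d, hd, rfl⟩ := Finset.mem_image.1 hx''
        rw [mem_anti] at hd
        obtain ⟨hy, hq⟩ := Finset.mem_product.1 hp
        rw [← mul_assoc, mo_single]
        refine Submodule.subset_span (hGmem _ y q _ hy (Finset.mem_range.1 hq) ?_)
        have h5 : ∑ j, (d + Finsupp.single i 1 : Fin (r + 1) →₀ ℕ) j = ∑ j, d j + 1 := by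
          simp only [Finsupp.add_apply, Finset.sum_add_distrib]
          congr 1
          simp [Finsupp.single_apply]
        rw [h5, hd]
        omega
      · simp at hx''
    | zero => rw [mul_zero]; exact Submodule.zero_mem _
    | add x y _ _ hx hy => rw [mul_add]; exact Submodule.add_mem _ hx hy
    | smul c x _ hx => rw [mul_smul_comm]; exact Submodule.smul_mem _ _ hx
  have hSx : ∀ s ∈ S, ∀ x : D, (∀ k, π k x ∈ Submodule.span ℂ (G k : Set D)) →
      ∀ k, π k (s * x) ∈ Submodule.span ℂ (G k : Set D) := by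
    intro s hs'
    induction hs' using Algebra.adjoin_induction with
    | mem s hs'' =>
      obtain ⟨i, rfl⟩ := hs''
      intro x hx k
      cases k with
      | zero => rw [hπ0 _ _ (ha i)]; exact Submodule.zero_mem _
      | succ k => rw [hπ1 _ _ _ (ha i)]; exact hstep k i _ (hx k)
    | algebraMap c =>
      intro x hx k
      rw [← Algebra.smul_def, map_smul]
      exact Submodule.smul_mem _ _ (hx k)
    | add s t _ _ hs' ht =>
      intro x hx k
      rw [add_mul, map_add]
      exact Submodule.add_mem _ (hs' x hx k) (ht x hx k)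
    | mul s t _ _ hs' ht =>
      intro x hx k
      rw [mul_assoc]
      exact hs' _ (ht x hx) k
  have hall : ∀ x : D, ∀ k, π k x ∈ Submodule.span ℂ (G k : Set D) := by
    intro x
    have hx : x ∈ Submodule.span S (Y : Set D) := by rw [hY]; exact Submodule.mem_top
    induction hx using Submodule.span_induction with
    | mem y hy =>
      intro k
      rcases Nat.lt_or_ge k B with hk | hk
      · have h5 := hGmem k y k 0 hy hk (by simp)
        have h6 : mo a (0 : Fin (r + 1) →₀ ℕ) = 1 := by simp [mo]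
        rw [h6, one_mul] at h5
        exact Submodule.subset_span h5
      · rw [hB y hy k hk]; exact Submodule.zero_mem _
    | zero => intro k; rw [map_zero]; exact Submodule.zero_mem _
    | add x y _ _ hx hy =>
      intro k
      rw [map_add]
      exact Submodule.add_mem _ (hx k) (hy k)
    | smul s x _ hx =>
      intro k
      exact hSx s.1 s.2 x hx k
  refine ⟨(Y ×ˢ Finset.range B).card, fun k => ?_⟩
  have hle : V k ≤ Submodule.span ℂ (G k : Set D) := by
    intro x hx
    rw [← hπs k x hx]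
    exact hall x k
  calc Module.finrank ℂ (V k) ≤ Module.finrank ℂ (Submodule.span ℂ (G k : Set D)) :=
        Submodule.finrank_mono hle
    _ ≤ (G k).card := finrank_span_finset_le_card _
    _ ≤ _ := hGcard k

end Gr

theorem pow_cmp (f : ℕ → ℝ) (m n : ℕ) (c C : ℝ) (hc : 0 < c)
    (h1 : ∀ᶠ k : ℕ in atTop, c * (k : ℝ) ^ m ≤ f k)
    (h2 : ∀ᶠ k : ℕ in atTop, f k ≤ C * (k : ℝ) ^ n) : m ≤ n := by
  by_contra h
  push Not at h
  have h3 : ∀ᶠ k : ℕ in atTop, (k : ℝ) ≤ C / c := by
    filter_upwards [h1, h2, eventually_ge_atTop 1] with k hk1 hk2 hk3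
    have hk : (1 : ℝ) ≤ k := by exact_mod_cast hk3
    have h4 : (k : ℝ) ^ (n + 1) ≤ (k : ℝ) ^ m := pow_le_pow_right₀ hk h
    have h5 : c * (k : ℝ) ^ (n + 1) ≤ C * (k : ℝ) ^ n :=
      (mul_le_mul_of_nonneg_left h4 hc.le).trans (hk1.trans hk2)
    have h6 : (0 : ℝ) < (k : ℝ) ^ n := by positivity
    rw [le_div_iff₀ hc]
    have h7 : (k : ℝ) * c * (k : ℝ) ^ n ≤ C * (k : ℝ) ^ n := by
      calc (k : ℝ) * c * (k : ℝ) ^ n = c * (k : ℝ) ^ (n + 1) := by ring
        _ ≤ _ := h5
    exact le_of_mul_le_mul_right h7 h6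
  obtain ⟨k, hk1, hk2⟩ := (h3.and ((tendsto_natCast_atTop_atTop (R := ℝ)).eventually_gt_atTop
    (C / c))).exists
  linarith

theorem hGNN : StGNN := by
  intro D _ _ _ V n hfd h0 hs hind htop ⟨c, C, hc, hgr⟩
  have hm := mulV h0 hs
  obtain ⟨r, a, ha, hal, hint⟩ := exists_norm hfd h0 hs hind htop
  have hr : r = n + 1 := by
    cases r with
    | zero =>
      exfalso
      have hrange : Set.range a = ∅ := Set.range_eq_empty a
      have hbot : ∀ s : Algebra.adjoin ℂ (Set.range a), IsIntegral ℂ s := by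
        intro s
        have hs' := s.2
        have h1 : (s : D) ∈ (⊥ : Subalgebra ℂ D) := by
          rw [← Algebra.adjoin_empty ℂ D, ← hrange]; exact hs'
        obtain ⟨z, hz⟩ := Algebra.mem_bot.1 h1
        have h2 : s = algebraMap ℂ _ z := Subtype.ext hz.symm
        rw [h2]
        exact isIntegral_algebraMap
      have hI : Algebra.IsIntegral ℂ D := by
        have h1 : Algebra.IsIntegral ℂ (Algebra.adjoin ℂ (Set.range a)) := ⟨hbot⟩
        exact ⟨fun x => isIntegral_trans (R := ℂ) (A := Algebra.adjoin ℂ (Set.range a)) x (hint x)⟩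
      have hbij := IsAlgClosed.algebraMap_bijective_of_isIntegral (k := ℂ) (K := D)
      have hV0 : ∀ x : D, x ∈ V 0 := by
        intro x
        obtain ⟨z, rfl⟩ := hbij.2 x
        rw [h0, Submodule.mem_span_singleton]
        exact ⟨z, by rw [Algebra.smul_def, mul_one]⟩
      have hV1 : ∀ x ∈ V 1, x = 0 := by
        intro x hx
        have h1 : Disjoint (V 0) (V 1) := hind.pairwiseDisjoint (by norm_num)
        exact (Submodule.disjoint_def.1 h1) x (hV0 x) hx
      have hVk : ∀ k, V (k + 1) = ⊥ := by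
        intro k
        rw [hs k, Submodule.span_eq_bot]
        rintro _ ⟨f, f', hf, hf', rfl⟩
        rw [hV1 f' hf', mul_zero]
      obtain ⟨k, hk1, hk2⟩ := (hgr.and (eventually_ge_atTop 1)).exists
      obtain ⟨k, rfl⟩ : ∃ j, k = j + 1 := ⟨k - 1, by omega⟩
      have h1 := hk1.1
      rw [hVk k, finrank_bot] at h1
      have h2 : (0 : ℝ) < c * ((k + 1 : ℕ) : ℝ) ^ n := by positivity
      simp only [Nat.cast_zero] at h1
      linarith
    | succ r =>
      congr 1
      have hlow := lower hfd h0 hm a ha hal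
      obtain ⟨J, hJ⟩ := upper hfd h0 hs hind htop a ha hint
      have hN1 : ∀ k : ℕ, (k : ℝ) ^ r ≤ (r.factorial : ℝ) * Nm (r + 1) k := by
        intro k
        have h1 : k ^ r ≤ r.factorial * Nm (r + 1) k := by
          rw [Nm_eq]
          exact (Nat.pow_le_pow_left (Nat.le_succ k) r).trans (Nat.pow_succ_le_ascFactorial _ _)
        exact_mod_cast h1
      have hN2 : ∀ k : ℕ, r ≤ k → (Nm (r + 1) k : ℝ) ≤ 2 ^ r * (k : ℝ) ^ r := by
        intro k hk
        have h1 : Nm (r + 1) k ≤ (2 * k) ^ r := by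
          calc Nm (r + 1) k ≤ r.factorial * Nm (r + 1) k :=
                Nat.le_mul_of_pos_left _ (Nat.factorial_pos r)
            _ = (k + 1).ascFactorial r := Nm_eq r k
            _ ≤ (k + r) ^ r := Nat.ascFactorial_le_pow_add k r
            _ ≤ (2 * k) ^ r := Nat.pow_le_pow_left (by omega) r
        have h2 : (Nm (r + 1) k : ℝ) ≤ ((2 * k : ℕ) : ℝ) ^ r := by exact_mod_cast h1
        rw [← mul_pow]
        simpa using h2
      apply le_antisymm
      · refine pow_cmp (fun k => (Module.finrank ℂ (V k) : ℝ)) r n ((r.factorial : ℝ)⁻¹) C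
          (by positivity) ?_ (hgr.mono fun k hk => hk.2)
        filter_upwards with k
        have h1 := hN1 k
        have h2 : (Nm (r + 1) k : ℝ) ≤ Module.finrank ℂ (V k) := by exact_mod_cast hlow k
        rw [inv_mul_le_iff₀ (by positivity)]
        refine h1.trans ?_
        exact mul_le_mul_of_nonneg_left h2 (by positivity)
      · refine pow_cmp (fun k => (Module.finrank ℂ (V k) : ℝ)) n r c (J * 2 ^ r) hc
          (hgr.mono fun k hk => hk.1) ?_
        filter_upwards [eventually_ge_atTop r] with k hk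
        have h1 : (Module.finrank ℂ (V k) : ℝ) ≤ J * Nm (r + 1) k := by exact_mod_cast hJ k
        rw [mul_assoc]
        exact h1.trans (mul_le_mul_of_nonneg_left (hN2 k hk) (by positivity))
  subst hr
  exact ⟨a, ha, hal, hint⟩

end Pool.Agent.Helper65.KP
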